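import Pool.Agent.H90.CS.Targets
import Pool.Agent.H90.LCL.SQC

/-!
# Board `lcs_modules`, row NEG: many admissible numbers without small representations
-/

set_option autoImplicit false

namespace Pool.Agent.H54.LCS

open Finset Pool.Agent.H44.MS Pool.Agent.H90.LC Pool.Agent.H90.CS

/-- the class of the sum of two squares -/
theorem class_b (M a m x n : ℕ) (hM : 0 < M) (hn : n ≡ a [MOD M]) (h : m + x ^ 2 = n) :
    m ≡ a + (M - 1) * x ^ 2 [MOD M] := by
  have h1 : m + x ^ 2 + (M - 1) * x ^ 2 ≡ a + (M - 1) * x ^ 2 [MOD M] := by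
    rw [h]
    exact Nat.ModEq.add_right _ hn
  have h2 : m + x ^ 2 + (M - 1) * x ^ 2 = m + M * x ^ 2 := by
    obtain ⟨k, rfl⟩ : ∃ k, M = k + 1 := ⟨M - 1, by omega⟩
    rw [Nat.add_sub_cancel]
    ring
  rw [h2] at h1
  have h3 : m + M * x ^ 2 ≡ m + 0 [MOD M] :=
    Nat.ModEq.add_left m ((Nat.modEq_zero_iff_dvd).2 (Dvd.intro _ rfl))
  exact (h3.symm.trans h1)

theorem pf_NEG (hS : T_SVD) (hT : T_TSQ) (hC : T_CLA) (hK : T_KI2) : T_NEG := by
  classical
  intro lam hlam
  obtain ⟨C1, hC1, hS⟩ := hS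
  obtain ⟨C2, hC2, hT⟩ := hT
  -- the choice of y
  obtain ⟨y, hy3, hy⟩ : ∃ y : ℕ, 3 ≤ y ∧ 64 * (C1 * C2 * lam) ≤ √(Real.log y) := by
    have h1 : Filter.Tendsto (fun y : ℕ => √(Real.log (y : ℝ))) Filter.atTop Filter.atTop :=
      Real.tendsto_sqrt_atTop.comp (Real.tendsto_log_atTop.comp tendsto_natCast_atTop_atTop)
    obtain ⟨y, hy⟩ := ((h1.eventually_ge_atTop (64 * (C1 * C2 * lam))).and
      (Filter.eventually_ge_atTop 3)).exists
    exact ⟨y, hy.2, hy.1⟩
  obtain ⟨h6, hM, a, ha⟩ := hC y hy3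
  obtain ⟨D, hD, hS⟩ := hS y hy3
  obtain ⟨N1, hT⟩ := hT y hy3
  set M := M2 y with hMdef
  have hMR : (0 : ℝ) < M := by exact_mod_cast hM
  have hlogy : 0 < Real.log y := Real.log_pos (by exact_mod_cast (by omega : 1 < y))
  have hsy : 0 < √(Real.log y) := Real.sqrt_pos.2 hlogy
  obtain ⟨N2, hN2⟩ : ∃ N2 : ℕ, ∀ N : ℕ, N2 ≤ N → 64 * (D * C2 * √(Real.log y)) ≤
      √(Real.log N) := by
    have h1 : Filter.Tendsto (fun y : ℕ => √(Real.log (y : ℝ))) Filter.atTop Filter.atTop :=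
      Real.tendsto_sqrt_atTop.comp (Real.tendsto_log_atTop.comp tendsto_natCast_atTop_atTop)
    exact Filter.eventually_atTop.1 (h1.eventually_ge_atTop (64 * (D * C2 * √(Real.log y))))
  refine ⟨1 / (16 * M), by positivity, max (max N1 N2) (400 * M ^ 2 + 3), fun N hN => ?_⟩
  have hN1 : N1 ≤ N := le_trans (le_trans (le_max_left _ _) (le_max_left _ _)) hN
  have hN2' : N2 ≤ N := le_trans (le_trans (le_max_right _ _) (le_max_left _ _)) hN
  have hN3 : 400 * M ^ 2 + 3 ≤ N := le_trans (le_max_right _ _) hN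
  have hNR : (3 : ℝ) ≤ N := by exact_mod_cast (by omega : 3 ≤ N)
  have hlogN : 0 < Real.log N := Real.log_pos (by linarith)
  have hsN : 0 < √(Real.log N) := Real.sqrt_pos.2 hlogN
  set B : ℕ := ⌊lam * √(Real.log N)⌋₊ with hB
  have hBle : (B : ℝ) ≤ lam * √(Real.log N) := Nat.floor_le (by positivity)
  -- the squarefree numbers in the class
  set G := (Icc 1 (N - 1)).filter (fun n => n ≡ a [MOD M] ∧ Squarefree n) with hG
  have hGc : ((N - 1 : ℕ) : ℝ) / (4 * M) ≤ (G.card : ℝ) :=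
    Pool.Agent.H90.LCL.sqc M a (N - 1) h6 hM (fun n hn => (ha n hn).2.2) (by omega)
  have hN1' : ((N - 1 : ℕ) : ℝ) = N - 1 := by
    rw [Nat.cast_sub (by omega)]
    norm_num
  have hGc' : (N : ℝ) / (8 * M) ≤ G.card := by
    refine le_trans ?_ hGc
    rw [hN1', div_le_div_iff₀ (by positivity) (by positivity)]
    nlinarith
  -- the bad ones
  set Bad := G.filter (fun n => Sm n (lam * √(Real.log n))) with hBad
  have hbadsub : Bad ⊆ (SV y B).biUnion
      (fun x => (TS y N (a + (M - 1) * x ^ 2)).image (fun m => m + x ^ 2)) := by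
    intro n hn
    rw [hBad, mem_filter] at hn
    obtain ⟨hnG, x1, x2, x3, hsum, hx3⟩ := hn
    rw [hG, mem_filter, mem_Icc] at hnG
    obtain ⟨⟨hn1, hnN⟩, hna, -⟩ := hnG
    obtain ⟨h8, hp, -⟩ := ha n hna
    have hx3B : x3.natAbs ≤ B := by
      refine Nat.le_floor ?_
      have h1 : ((x3.natAbs : ℕ) : ℝ) = |(x3 : ℝ)| := by
        rw [Nat.cast_natAbs, Int.cast_abs]
      rw [h1]
      refine hx3.trans (mul_le_mul_of_nonneg_left (Real.sqrt_le_sqrt ?_) hlam.le)
      refine Real.log_le_log (by exact_mod_cast (by omega : 0 < n)) ?_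
      exact_mod_cast (by omega : n ≤ N)
    have hsv := hK y n B h8 hp x1 x2 x3 hsum hx3B
    have hnat : x1.natAbs ^ 2 + x2.natAbs ^ 2 + x3.natAbs ^ 2 = n := by
      zify
      rw [sq_abs, sq_abs, sq_abs]
      exact hsum
    rw [mem_biUnion]
    refine ⟨x3.natAbs, hsv, ?_⟩
    rw [mem_image]
    refine ⟨x1.natAbs ^ 2 + x2.natAbs ^ 2, ?_, hnat⟩
    unfold TS
    rw [mem_filter, mem_Icc]
    refine ⟨⟨Nat.zero_le _, by omega⟩, ?_, x1.natAbs, x2.natAbs, rfl⟩
    exact class_b M a _ _ n hM hna hnat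
  have hbadc : (Bad.card : ℝ) ≤ (N : ℝ) / (32 * M) := by
    have h1 : (Bad.card : ℝ) ≤ ∑ x ∈ SV y B, ((TS y N (a + (M - 1) * x ^ 2)).card : ℝ) := by
      have h2 : Bad.card ≤ ∑ x ∈ SV y B, (TS y N (a + (M - 1) * x ^ 2)).card :=
        (card_le_card hbadsub).trans (card_biUnion_le.trans
          (sum_le_sum fun x _ => card_image_le))
      exact_mod_cast h2
    have h3 : ∑ x ∈ SV y B, ((TS y N (a + (M - 1) * x ^ 2)).card : ℝ) ≤
        (SV y B).card * (C2 * √(Real.log y) * N / (M * √(Real.log N))) := by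
      rw [← nsmul_eq_mul]
      exact sum_le_card_nsmul _ _ _ fun x _ => hT N _ hN1
    have h4 : ((SV y B).card : ℝ) ≤ C1 * (lam * √(Real.log N)) / Real.log y + D := by
      refine (hS B).trans ?_
      have h5 : C1 * (B : ℝ) / Real.log y ≤ C1 * (lam * √(Real.log N)) / Real.log y :=
        div_le_div_of_nonneg_right (mul_le_mul_of_nonneg_left hBle hC1.le) hlogy.le
      linarith
    have h5 : (0 : ℝ) ≤ C2 * √(Real.log y) * N / (M * √(Real.log N)) := by positivity
    refine h1.trans (h3.trans ((mul_le_mul_of_nonneg_right h4 h5).trans ?_))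
    set u := √(Real.log y) with hu
    set v := √(Real.log N) with hv
    have hu2 : Real.log y = u ^ 2 := (Real.sq_sqrt hlogy.le).symm
    have e1 : (C1 * (lam * v) / Real.log y + D) * (C2 * u * N / (M * v)) =
        (C1 * C2 * lam / u + D * C2 * u / v) * (N / M) := by
      rw [hu2]
      field_simp
    have e2 : C1 * C2 * lam / u ≤ 1 / 64 := by
      rw [div_le_iff₀ hsy]
      linarith
    have e3 : D * C2 * u / v ≤ 1 / 64 := by
      rw [div_le_iff₀ hsN]
      have := hN2 N hN2'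
      linarith
    rw [e1]
    have e4 : (C1 * C2 * lam / u + D * C2 * u / v) * ((N : ℝ) / M) ≤ (1 / 32) * ((N : ℝ) / M) :=
      mul_le_mul_of_nonneg_right (by linarith) (by positivity)
    refine e4.trans (le_of_eq ?_)
    field_simp
  -- the rest
  have hsub : G \ Bad ⊆ AnF N lam := by
    intro n hn
    rw [mem_sdiff] at hn
    obtain ⟨hnG, hnB⟩ := hn
    have hnot : ¬ Sm n (lam * √(Real.log n)) := fun h => hnB (mem_filter.2 ⟨hnG, h⟩)
    rw [hG, mem_filter, mem_Icc] at hnG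
    obtain ⟨⟨hn1, hnN⟩, hna, hsq⟩ := hnG
    have h8 := (ha n hna).1
    unfold AnF
    rw [mem_filter, mem_range]
    refine ⟨by omega, ⟨?_, hsq, by omega⟩, hnot⟩
    rw [Nat.odd_iff]
    omega
  have hcard : (G.card : ℝ) - Bad.card ≤ (AnF N lam).card := by
    have h1 : G.card - Bad.card ≤ (AnF N lam).card :=
      (le_card_sdiff Bad G).trans (card_le_card hsub)
    have h2 : G.card ≤ (AnF N lam).card + Bad.card := by omega
    have h3 : (G.card : ℝ) ≤ (AnF N lam).card + Bad.card := by exact_mod_cast h2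
    linarith
  have h7 : (N : ℝ) / (8 * M) - N / (32 * M) ≤ (AnF N lam).card := by linarith
  refine le_trans ?_ h7
  have h8 : (N : ℝ) / (8 * M) - N / (32 * M) = (3 / 32) * (N / M) := by
    field_simp
    norm_num
  have h9 : 1 / (16 * (M : ℝ)) * N = (1 / 16) * (N / M) := by
    field_simp
  rw [h8, h9]
  exact mul_le_mul_of_nonneg_right (by norm_num) (by positivity)

end Pool.Agent.H54.LCS
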